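import Pool.Agent.H98.Cubic.Basic
import Pool.Agent.H98.Cubic.Targets

/-! Module Z3 of the cubic moment project (`MP_56c76e_nt`): Stirling for the argument of
`Γ(1/4 + it/2)`. -/

set_option autoImplicit false

open Finset Filter Topology

namespace Pool.Agent.H97.Cubic

open Pool.Agent.H98.Cubic

/-- `F(x) = x arctan (b/x) + (b/2) log (x² + b²)`, an antiderivative of `arctan (b/x)`. -/
noncomputable def Fa (b x : ℝ) : ℝ := x * Real.arctan (b / x) + b / 2 * Real.log (x ^ 2 + b ^ 2)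

theorem hasDerivAt_at (b : ℝ) {x : ℝ} (hx : 0 < x) :
    HasDerivAt (fun y => Real.arctan (b / y)) (-(b / (x ^ 2 + b ^ 2))) x := by
  have h1 : HasDerivAt (fun y : ℝ => b / y) (-b / x ^ 2) x := by
    have := (hasDerivAt_inv hx.ne').const_mul b
    refine (this.congr_of_eventuallyEq ?_).congr_deriv ?_
    · filter_upwards with y; rw [div_eq_mul_inv]
    · field_simp
  refine h1.arctan.congr_deriv ?_
  have : 0 < x ^ 2 + b ^ 2 := by positivity
  field_simp

theorem hasDerivAt_Fa (b : ℝ) {x : ℝ} (hx : 0 < x) :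
    HasDerivAt (Fa b) (Real.arctan (b / x)) x := by
  have h0 : 0 < x ^ 2 + b ^ 2 := by positivity
  have h1 := (hasDerivAt_id x).mul (hasDerivAt_at b hx)
  have h2 : HasDerivAt (fun y : ℝ => y ^ 2 + b ^ 2) (2 * x) x := by
    simpa using (hasDerivAt_pow 2 x).add_const (b ^ 2)
  have h3 := (h2.log h0.ne').const_mul (b / 2)
  refine (h1.add h3).congr_deriv ?_
  simp only [id]
  field_simp
  ring

/-- `f'` is monotone. -/
theorem fp_mono {b x y : ℝ} (hb : 0 < b) (hx : 0 < x) (hxy : x ≤ y) :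
    -(b / (x ^ 2 + b ^ 2)) ≤ -(b / (y ^ 2 + b ^ 2)) := by
  apply neg_le_neg
  apply div_le_div_of_nonneg_left hb.le (by positivity)
  gcongr

/-- trapezoid rule on one interval. -/
theorem trap {b x : ℝ} (hb : 0 < b) (hx : 0 < x) :
    |Fa b (x + 1) - Fa b x - 1 / 2 * (Real.arctan (b / x) + Real.arctan (b / (x + 1)))| ≤
      1 / 2 * (-(b / ((x + 1) ^ 2 + b ^ 2)) - -(b / (x ^ 2 + b ^ 2))) := by
  set Δ : ℝ := -(b / ((x + 1) ^ 2 + b ^ 2)) - -(b / (x ^ 2 + b ^ 2)) with hΔ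
  have hd : ∀ y ∈ Set.Icc (0 : ℝ) 1, HasDerivAt
      (fun y => Fa b (x + y) - Fa b x - y / 2 * (Real.arctan (b / x) + Real.arctan (b / (x + y))))
      (Real.arctan (b / (x + y)) - (1 / 2 * (Real.arctan (b / x) + Real.arctan (b / (x + y))) +
        y / 2 * (-(b / ((x + y) ^ 2 + b ^ 2))))) y := by
    intro y hy
    have hxy : 0 < x + y := by linarith [hy.1]
    have h1 : HasDerivAt (fun y => Fa b (x + y)) (Real.arctan (b / (x + y))) y := by
      simpa using (hasDerivAt_Fa b hxy).comp_const_add x y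
    have h2 : HasDerivAt (fun y => Real.arctan (b / (x + y))) (-(b / ((x + y) ^ 2 + b ^ 2))) y := by
      simpa using (hasDerivAt_at b hxy).comp_const_add x y
    have h3 : HasDerivAt (fun y : ℝ => y / 2) (1 / 2) y := (hasDerivAt_id y).div_const 2
    exact (h1.sub_const _).sub (h3.mul (h2.const_add _))
  have hbd : ∀ y ∈ Set.Icc (0 : ℝ) 1,
      ‖Real.arctan (b / (x + y)) - (1 / 2 * (Real.arctan (b / x) + Real.arctan (b / (x + y))) +
        y / 2 * (-(b / ((x + y) ^ 2 + b ^ 2))))‖ ≤ 1 / 2 * Δ := by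
    intro y hy
    have hy0 := hy.1
    have hy1 := hy.2
    rcases hy0.eq_or_lt with h0 | h0
    · subst h0
      have : 0 ≤ Δ := by
        have := fp_mono hb hx (show x ≤ x + 1 by linarith)
        linarith
      simp only [add_zero]
      have e : Real.arctan (b / x) - (1 / 2 * (Real.arctan (b / x) + Real.arctan (b / x)) +
        0 / 2 * (-(b / (x ^ 2 + b ^ 2)))) = 0 := by ring
      rw [e, norm_zero]; positivity
    · -- mean value
      obtain ⟨c, hc, hc2⟩ := exists_hasDerivAt_eq_slope (fun y => Real.arctan (b / y))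
        (fun y => -(b / (y ^ 2 + b ^ 2))) (show x < x + y by linarith)
        (fun z hz => ((hasDerivAt_at b (hx.trans_le hz.1)).continuousAt).continuousWithinAt)
        (fun z hz => hasDerivAt_at b (hx.trans hz.1))
      have hc3 : Real.arctan (b / (x + y)) - Real.arctan (b / x) = y * (-(b / (c ^ 2 + b ^ 2))) := by
        have hy' : y ≠ 0 := h0.ne'
        rw [hc2, show x + y - x = y by ring, mul_div_cancel₀ _ hy']
      have e : Real.arctan (b / (x + y)) - (1 / 2 * (Real.arctan (b / x) + Real.arctan (b / (x + y))) +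
        y / 2 * (-(b / ((x + y) ^ 2 + b ^ 2)))) =
        1 / 2 * (y * (-(b / (c ^ 2 + b ^ 2)) - -(b / ((x + y) ^ 2 + b ^ 2)))) := by
        linear_combination (1 / 2 : ℝ) * hc3
      rw [e]
      have m1 := fp_mono hb (show 0 < c by linarith [hc.1]) hc.2.le
      have m2 := fp_mono hb hx hc.1.le
      have m3 := fp_mono hb (show 0 < x + y by linarith) (show x + y ≤ x + 1 by linarith)
      rw [Real.norm_eq_abs, abs_mul, abs_of_pos (by norm_num : (0 : ℝ) < 1 / 2)]
      apply mul_le_mul_of_nonneg_left _ (by norm_num)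
      rw [abs_of_nonpos (by nlinarith)]
      nlinarith
  have key := Convex.norm_image_sub_le_of_norm_hasDerivWithin_le (s := Set.Icc (0 : ℝ) 1)
    (fun y hy => (hd y hy).hasDerivWithinAt) hbd (convex_Icc 0 1)
    (Set.left_mem_Icc.mpr zero_le_one) (Set.right_mem_Icc.mpr zero_le_one)
  simp only [add_zero, sub_self, zero_div, zero_mul, sub_zero, norm_one, mul_one,
    Real.norm_eq_abs] at key
  exact key

/-- Euler–Maclaurin for `∑ arctan (b / (j + 1/4))`. -/
theorem sum_arctan {b : ℝ} (hb : 0 < b) (n : ℕ) :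
    |∑ j ∈ range (n + 1), Real.arctan (b / (j + 1 / 4)) -
      (Fa b (n + 1 / 4) - Fa b (1 / 4) + 1 / 2 * Real.arctan (b / (1 / 4)) +
        1 / 2 * Real.arctan (b / (n + 1 / 4)))| ≤
      1 / 2 * (-(b / (((n : ℝ) + 1 / 4) ^ 2 + b ^ 2)) - -(b / ((1 / 4) ^ 2 + b ^ 2))) := by
  induction n with
  | zero =>
    simp only [zero_add, Finset.range_one, Finset.sum_singleton, Nat.cast_zero]
    have e : Real.arctan (b / (1 / 4)) - (Fa b (1 / 4) - Fa b (1 / 4) +
        1 / 2 * Real.arctan (b / (1 / 4)) + 1 / 2 * Real.arctan (b / (1 / 4))) = 0 := by ring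
    rw [e, sub_self, mul_zero, abs_zero]
  | succ n ih =>
    rw [Finset.sum_range_succ]
    have ht := trap (x := (n : ℝ) + 1 / 4) hb (by positivity)
    push_cast
    have e1 : (n : ℝ) + 1 / 4 + 1 = (n : ℝ) + 1 + 1 / 4 := by ring
    rw [e1] at ht
    rw [abs_le] at ih ht ⊢
    constructor <;> linarith [ih.1, ih.2, ht.1, ht.2]

theorem sqrt_one_add {x b : ℝ} (hx : 0 < x) :
    x * Real.sqrt (1 + (b / x) ^ 2) = Real.sqrt (x ^ 2 + b ^ 2) := by
  have e : x ^ 2 + b ^ 2 = x ^ 2 * (1 + (b / x) ^ 2) := by field_simp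
  rw [e, Real.sqrt_mul (by positivity), Real.sqrt_sq hx.le]

theorem polar {x b : ℝ} (hx : 0 < x) :
    ((x : ℂ) + b * Complex.I) = (Real.sqrt (x ^ 2 + b ^ 2) : ℂ) * ei (Real.arctan (b / x)) := by
  unfold ei
  rw [Complex.exp_mul_I, ← Complex.ofReal_cos, ← Complex.ofReal_sin, Real.cos_arctan,
    Real.sin_arctan, ← sqrt_one_add hx]
  have hs : 0 < Real.sqrt (1 + (b / x) ^ 2) := Real.sqrt_pos.mpr (by positivity)
  have h1 : x * Real.sqrt (1 + (b / x) ^ 2) * (1 / Real.sqrt (1 + (b / x) ^ 2)) = x := by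
    field_simp
  have h2 : x * Real.sqrt (1 + (b / x) ^ 2) * (b / x / Real.sqrt (1 + (b / x) ^ 2)) = b := by
    field_simp
  have h1c : ((x * Real.sqrt (1 + (b / x) ^ 2) : ℝ) : ℂ) *
      ((1 / Real.sqrt (1 + (b / x) ^ 2) : ℝ) : ℂ) = x := by rw [← Complex.ofReal_mul, h1]
  have h2c : ((x * Real.sqrt (1 + (b / x) ^ 2) : ℝ) : ℂ) *
      ((b / x / Real.sqrt (1 + (b / x) ^ 2) : ℝ) : ℂ) = b := by rw [← Complex.ofReal_mul, h2]
  linear_combination -h1c - Complex.I * h2c

/-- phase of `GammaSeq`. -/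
theorem gammaSeq_phase {b : ℝ} {n : ℕ} (hn : 1 ≤ n) :
    ∃ r : ℝ, 0 < r ∧ Complex.GammaSeq (1 / 4 + b * Complex.I) n =
      (r : ℂ) * ei (b * Real.log n - ∑ j ∈ range (n + 1), Real.arctan (b / (j + 1 / 4))) := by
  have hn0 : (0 : ℝ) < n := by exact_mod_cast hn
  have h1 : ∀ m : ℕ, ∃ r : ℝ, 0 < r ∧ ∏ j ∈ Finset.range m, ((1 / 4 + (b : ℂ) * Complex.I) + j) =
      (r : ℂ) * ei (∑ j ∈ range m, Real.arctan (b / (j + 1 / 4))) := by
    intro m
    induction m with
    | zero => exact ⟨1, one_pos, by simp⟩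
    | succ m ih =>
      obtain ⟨r, hr, e⟩ := ih
      have hp := polar (x := (m : ℝ) + 1 / 4) (b := b) (by positivity)
      refine ⟨r * Real.sqrt (((m : ℝ) + 1 / 4) ^ 2 + b ^ 2), by positivity, ?_⟩
      rw [Finset.prod_range_succ, e, Finset.sum_range_succ, ei_add]
      have : (1 / 4 + (b : ℂ) * Complex.I) + m = (((m : ℝ) + 1 / 4 : ℝ) : ℂ) + b * Complex.I := by
        push_cast; ring
      rw [this, hp]
      push_cast
      ring
  obtain ⟨r, hr, e⟩ := h1 (n + 1)
  refine ⟨(n : ℝ) ^ (1 / 4 : ℝ) * (Nat.factorial n : ℝ) / r, by positivity, ?_⟩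
  unfold Complex.GammaSeq
  rw [e, ei_sub]
  have h2 : (n : ℂ) ^ (1 / 4 + (b : ℂ) * Complex.I) =
      (((n : ℝ) ^ (1 / 4 : ℝ) : ℝ) : ℂ) * ei (b * Real.log n) := by
    rw [Complex.cpow_add _ _ (by exact_mod_cast hn0.ne'), Complex.ofReal_cpow hn0.le]
    congr 1
    · push_cast; rfl
    · unfold ei
      rw [Complex.cpow_def_of_ne_zero (by exact_mod_cast hn0.ne')]
      congr 1
      push_cast
      rw [show Complex.log (n : ℂ) = ((Real.log n : ℝ) : ℂ) by
        rw [Complex.ofReal_log hn0.le]; push_cast; rfl]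
      ring
  rw [h2]
  have hr' : (r : ℂ) ≠ 0 := by exact_mod_cast hr.ne'
  have hei := ei_ne_zero (∑ j ∈ range (n + 1), Real.arctan (b / (j + 1 / 4)))
  push_cast
  field_simp

/-- the phase of `π^{-it/2} GammaSeq (1/4 + it/2) n`. -/
noncomputable def phs (t : ℝ) (n : ℕ) : ℝ :=
  -(t / 2 * Real.log Real.pi) + (t / 2 * Real.log n -
    ∑ j ∈ range (n + 1), Real.arctan ((t / 2) / (j + 1 / 4)))

theorem tendsto_phs (t : ℝ) : Tendsto (fun n : ℕ => ei (phs t n)) atTop (𝓝 (eTheta t)) := by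
  have hs : (1 / 4 + (t : ℂ) * Complex.I / 2) = 1 / 4 + ((t / 2 : ℝ) : ℂ) * Complex.I := by
    push_cast; ring
  have hG0 : Complex.Gamma (1 / 4 + (t : ℂ) * Complex.I / 2) ≠ 0 := by
    apply Complex.Gamma_ne_zero_of_re_pos
    simp
  have h1 := Complex.GammaSeq_tendsto_Gamma (1 / 4 + (t : ℂ) * Complex.I / 2)
  have h2 : Tendsto (fun n => (Complex.GammaSeq (1 / 4 + (t : ℂ) * Complex.I / 2) n) /
      (‖Complex.GammaSeq (1 / 4 + (t : ℂ) * Complex.I / 2) n‖ : ℂ)) atTop
      (𝓝 (Complex.Gamma (1 / 4 + t * Complex.I / 2) /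
        (‖Complex.Gamma (1 / 4 + t * Complex.I / 2)‖ : ℂ))) := by
    apply h1.div
    · exact (Complex.continuous_ofReal.tendsto _).comp h1.norm
    · exact_mod_cast (norm_pos_iff.mpr hG0).ne'
  have h3 : (Real.pi : ℂ) ^ (-((t : ℂ) * Complex.I) / 2) = ei (-(t / 2 * Real.log Real.pi)) := by
    unfold ei
    rw [Complex.cpow_def_of_ne_zero (by exact_mod_cast Real.pi_ne_zero), ← Complex.ofReal_log
      Real.pi_pos.le]
    congr 1
    push_cast; ring
  unfold eTheta
  rw [h3]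
  refine (h2.const_mul (ei (-(t / 2 * Real.log Real.pi)))).congr' ?_
  filter_upwards [eventually_ge_atTop 1] with n hn
  obtain ⟨r, hr, e⟩ := gammaSeq_phase (b := t / 2) hn
  rw [hs, e, norm_mul, norm_ei, mul_one, Complex.norm_real, Real.norm_eq_abs, abs_of_pos hr]
  unfold phs
  rw [ei_add]
  have hr' : (r : ℂ) ≠ 0 := by exact_mod_cast hr.ne'
  rw [mul_div_cancel_left₀ _ hr']

theorem arctan_le_self' {y : ℝ} (hy : 0 ≤ y) : Real.arctan y ≤ y := by
  have := Real.le_tan (Real.arctan_nonneg.mpr hy) (Real.arctan_lt_pi_div_two y)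
  rwa [Real.tan_arctan] at this

theorem tendsto_x_arctan (b : ℝ) (hb : 0 < b) :
    Tendsto (fun n : ℕ => ((n : ℝ) + 1 / 4) * Real.arctan (b / (n + 1 / 4))) atTop (𝓝 b) := by
  have h1 : Tendsto (fun y : ℝ => y⁻¹ * Real.arctan y) (𝓝[≠] 0) (𝓝 1) := by
    have := (Real.hasDerivAt_arctan 0).tendsto_slope_zero
    simpa using this
  have h2 : Tendsto (fun n : ℕ => b / ((n : ℝ) + 1 / 4)) atTop (𝓝[≠] 0) := by
    rw [tendsto_nhdsWithin_iff]
    constructor
    · apply Tendsto.div_atTop tendsto_const_nhds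
      exact tendsto_atTop_add_const_right _ _ tendsto_natCast_atTop_atTop
    · filter_upwards with n
      have : 0 < b / ((n : ℝ) + 1 / 4) := by positivity
      exact this.ne'
  have h3 := (h1.comp h2).const_mul b
  rw [mul_one] at h3
  refine h3.congr fun n => ?_
  simp only [Function.comp]
  have : (0 : ℝ) < (n : ℝ) + 1 / 4 := by positivity
  field_simp

theorem tendsto_log_part (b : ℝ) :
    Tendsto (fun n : ℕ => b / 2 * Real.log (((n : ℝ) + 1 / 4) ^ 2 + b ^ 2) - b * Real.log n)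
      atTop (𝓝 0) := by
  have h1 : Tendsto (fun n : ℕ => (1 / (n : ℝ))) atTop (𝓝 0) :=
    tendsto_one_div_atTop_nhds_zero_nat
  have h2 : Tendsto (fun n : ℕ => (1 + 1 / 4 * (1 / (n : ℝ))) ^ 2 + b ^ 2 * (1 / (n : ℝ)) ^ 2)
      atTop (𝓝 1) := by
    have := ((h1.const_mul (1 / 4)).const_add 1).pow 2 |>.add ((h1.pow 2).const_mul (b ^ 2))
    simpa using this
  have h3 := (h2.log (by norm_num)).const_mul (b / 2)
  rw [Real.log_one, mul_zero] at h3
  refine h3.congr' ?_
  filter_upwards [eventually_ge_atTop 1] with n hn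
  have hn0 : (0 : ℝ) < n := by exact_mod_cast hn
  have e : (1 + 1 / 4 * (1 / (n : ℝ))) ^ 2 + b ^ 2 * (1 / (n : ℝ)) ^ 2 =
      (((n : ℝ) + 1 / 4) ^ 2 + b ^ 2) / (n : ℝ) ^ 2 := by field_simp
  rw [e, Real.log_div (by positivity) (by positivity), Real.log_pow]
  push_cast; ring

/-- [Z3] -/
theorem z3 : TZ3 := by
  refine ⟨2, by norm_num, fun t ht => ?_⟩
  have ht0 : 0 < t := by linarith
  have hpi := Real.pi_pos
  set b : ℝ := t / 2 with hb
  have hb0 : 0 < b := by positivity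
  set e : ℕ → ℝ := fun n => |((n : ℝ) + 1 / 4) * Real.arctan (b / (n + 1 / 4)) - b| +
    |b / 2 * Real.log (((n : ℝ) + 1 / 4) ^ 2 + b ^ 2) - b * Real.log n| +
    1 / 2 * Real.arctan (b / (n + 1 / 4)) with he
  have he0 : Tendsto e atTop (𝓝 0) := by
    have h1 : Tendsto (fun n : ℕ => |((n : ℝ) + 1 / 4) * Real.arctan (b / (n + 1 / 4)) - b|)
        atTop (𝓝 0) := by
      have := ((tendsto_x_arctan b hb0).sub_const b).abs
      simpa using this
    have h2 : Tendsto (fun n : ℕ =>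
        |b / 2 * Real.log (((n : ℝ) + 1 / 4) ^ 2 + b ^ 2) - b * Real.log n|) atTop (𝓝 0) := by
      have := (tendsto_log_part b).abs
      simpa using this
    have h3 : Tendsto (fun n : ℕ => 1 / 2 * Real.arctan (b / ((n : ℝ) + 1 / 4))) atTop (𝓝 0) := by
      have h4 : Tendsto (fun n : ℕ => b / ((n : ℝ) + 1 / 4)) atTop (𝓝 0) := by
        apply Tendsto.div_atTop tendsto_const_nhds
        exact tendsto_atTop_add_const_right _ _ tendsto_natCast_atTop_atTop
      have := ((Real.continuous_arctan.tendsto 0).comp h4).const_mul (1 / 2)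
      simpa [Real.arctan_zero] using this
    have := (h1.add h2).add h3
    rw [add_zero, add_zero] at this
    exact this
  have hmain : ∀ n : ℕ, |phs t n - th0 t| ≤ 1 / b + e n := by
    intro n
    have hs := sum_arctan hb0 n
    have hfa : Fa b (n + 1 / 4) = ((n : ℝ) + 1 / 4) * Real.arctan (b / (n + 1 / 4)) +
      b / 2 * Real.log (((n : ℝ) + 1 / 4) ^ 2 + b ^ 2) := rfl
    have hfb : Fa b (1 / 4) = 1 / 4 * Real.arctan (b / (1 / 4)) +
      b / 2 * Real.log ((1 / 4) ^ 2 + b ^ 2) := rfl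
    -- `arctan (4 b) = π/2 - arctan (1/(4b))`
    have ha : Real.arctan (b / (1 / 4)) = Real.pi / 2 - Real.arctan (1 / (4 * b)) := by
      have := Real.arctan_inv_of_pos (show 0 < 1 / (4 * b) by positivity)
      rw [← this]; congr 1; field_simp
    have ha1 : 0 ≤ Real.arctan (1 / (4 * b)) := Real.arctan_nonneg.mpr (by positivity)
    have ha2 : Real.arctan (1 / (4 * b)) ≤ 1 / (4 * b) := arctan_le_self' (by positivity)
    have hl : Real.log ((1 / 4) ^ 2 + b ^ 2) = 2 * Real.log b + Real.log (1 + 1 / (16 * b ^ 2)) := by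
      have : (1 / 4 : ℝ) ^ 2 + b ^ 2 = b ^ 2 * (1 + 1 / (16 * b ^ 2)) := by field_simp; ring
      rw [this, Real.log_mul (by positivity) (by positivity), Real.log_pow]
      push_cast; ring
    have hl1 : 0 ≤ Real.log (1 + 1 / (16 * b ^ 2)) := Real.log_nonneg (by
      have : 0 < 1 / (16 * b ^ 2) := by positivity
      linarith)
    have hl2 : Real.log (1 + 1 / (16 * b ^ 2)) ≤ 1 / (16 * b ^ 2) := by
      have := Real.log_le_sub_one_of_pos (show 0 < 1 + 1 / (16 * b ^ 2) by positivity)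
      linarith
    have hl3 : b / 2 * Real.log (1 + 1 / (16 * b ^ 2)) ≤ 1 / (32 * b) := by
      calc b / 2 * Real.log (1 + 1 / (16 * b ^ 2)) ≤ b / 2 * (1 / (16 * b ^ 2)) := by gcongr
        _ = 1 / (32 * b) := by field_simp; norm_num
    have hl4 : 0 ≤ b / 2 * Real.log (1 + 1 / (16 * b ^ 2)) := by positivity
    have hth : th0 t = b * Real.log b - b * Real.log Real.pi - b - Real.pi / 8 := by
      unfold th0
      have : t / (2 * Real.pi) = b / Real.pi := by rw [hb]; field_simp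
      rw [this, Real.log_div hb0.ne' hpi.ne']; rw [hb]; ring
    have hf : 1 / 2 * (-(b / (((n : ℝ) + 1 / 4) ^ 2 + b ^ 2)) - -(b / ((1 / 4) ^ 2 + b ^ 2))) ≤
        1 / (2 * b) := by
      have h5 : 0 ≤ b / (((n : ℝ) + 1 / 4) ^ 2 + b ^ 2) := by positivity
      have h6 : b / ((1 / 4) ^ 2 + b ^ 2) ≤ 1 / b := by
        rw [div_le_div_iff₀ (by positivity) hb0]; nlinarith
      have h7 : 1 / (2 * b) = 1 / 2 * (1 / b) := by field_simp
      rw [h7]; linarith
    have hb32 : 1 / (32 * b) = 1 / 32 * (1 / b) := by field_simp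
    have hb4 : 1 / (4 * b) = 1 / 4 * (1 / b) := by field_simp
    have hb2 : 1 / (2 * b) = 1 / 2 * (1 / b) := by field_simp
    have hbi : 0 < 1 / b := by positivity
    rw [hfa, hfb, hl, ha] at hs
    have hx1 := abs_le.mp (le_refl |((n : ℝ) + 1 / 4) * Real.arctan (b / (n + 1 / 4)) - b|)
    have hx2 := abs_le.mp (le_refl
      |b / 2 * Real.log (((n : ℝ) + 1 / 4) ^ 2 + b ^ 2) - b * Real.log n|)
    have hx3 : 0 ≤ Real.arctan (b / ((n : ℝ) + 1 / 4)) := Real.arctan_nonneg.mpr (by positivity)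
    rw [hth]
    unfold phs
    rw [abs_le] at hs ⊢
    simp only [he, ← hb]
    constructor <;> linarith [hs.1, hs.2, hx1.1, hx1.2, hx2.1, hx2.2]
  have hlim : Tendsto (fun n : ℕ => ‖ei (phs t n) - ei (th0 t)‖) atTop
      (𝓝 ‖eTheta t - ei (th0 t)‖) := ((tendsto_phs t).sub_const _).norm
  have hlim2 : Tendsto (fun n : ℕ => 1 / b + e n) atTop (𝓝 (1 / b)) := by
    simpa using he0.const_add (1 / b)
  have hfin : ‖eTheta t - ei (th0 t)‖ ≤ 1 / b :=
    le_of_tendsto_of_tendsto' hlim hlim2 fun n => (norm_ei_sub_le _ _).trans (hmain n)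
  refine hfin.trans (le_of_eq ?_)
  rw [hb]; field_simp

end Pool.Agent.H97.Cubic
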