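import Pool.Agent.H98.Cubic.Basic
import Pool.Agent.H98.Cubic.Targets

/-! Module AFE of the cubic moment project (`MP_56c76e_nt`), part 1: first derivative tests for
`∫ u^{-1/2} e^{i (2 π μ u - t log u)} du`. -/

set_option autoImplicit false

open Finset MeasureTheory intervalIntegral

namespace Pool.Agent.H97.Cubic

open Pool.Agent.H98.Cubic

/-- the integrand `u^{-1/2} e^{i (2 π μ u - t log u)}`. -/
noncomputable def gI (t : ℝ) (μ : ℕ) (u : ℝ) : ℂ :=
  ((1 / Real.sqrt u : ℝ) : ℂ) * ei (2 * Real.pi * μ * u - t * Real.log u)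

theorem norm_gI (t : ℝ) (μ : ℕ) (u : ℝ) : ‖gI t μ u‖ = 1 / Real.sqrt u := by
  unfold gI
  rw [norm_mul, norm_ei, mul_one, Complex.norm_real, Real.norm_eq_abs, abs_of_nonneg (by positivity)]

theorem one_div_sqrt_eq (u : ℝ) (hu : 0 ≤ u) : 1 / Real.sqrt u = u ^ (-(1 / 2) : ℝ) := by
  rw [Real.sqrt_eq_rpow, Real.rpow_neg hu, one_div]

theorem intervalIntegrable_sqrt {a b : ℝ} (ha : 0 ≤ a) (hb : 0 ≤ b) :
    IntervalIntegrable (fun u : ℝ => 1 / Real.sqrt u) volume a b := by
  have h := intervalIntegral.intervalIntegrable_rpow' (a := a) (b := b) (r := -(1 / 2))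
    (by norm_num)
  refine h.congr ?_
  intro u hu
  have hu0 : 0 ≤ u := by
    rcases le_total a b with hab | hab
    · rw [Set.uIoc_of_le hab] at hu; exact ha.trans hu.1.le
    · rw [Set.uIoc_of_ge hab] at hu; exact hb.trans hu.1.le
  exact (one_div_sqrt_eq u hu0).symm

theorem integral_sqrt {a b : ℝ} (ha : 0 ≤ a) (hb : 0 ≤ b) :
    ∫ u in a..b, 1 / Real.sqrt u = 2 * (Real.sqrt b - Real.sqrt a) := by
  have h1 : ∫ u in a..b, 1 / Real.sqrt u = ∫ u in a..b, u ^ (-(1 / 2) : ℝ) := by
    apply intervalIntegral.integral_congr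
    intro u hu
    have hu0 : 0 ≤ u := by
      rcases le_total a b with hab | hab
      · rw [Set.uIcc_of_le hab] at hu; exact ha.trans hu.1
      · rw [Set.uIcc_of_ge hab] at hu; exact hb.trans hu.1
    exact one_div_sqrt_eq u hu0
  rw [h1, integral_rpow (Or.inl (by norm_num))]
  rw [Real.sqrt_eq_rpow, Real.sqrt_eq_rpow]
  norm_num
  ring

theorem aestronglyMeasurable_gI (t : ℝ) (μ : ℕ) (m : Measure ℝ) :
    AEStronglyMeasurable (gI t μ) m := by
  unfold gI ei
  apply Measurable.aestronglyMeasurable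
  have h1 : Measurable fun u : ℝ => (((1 / Real.sqrt u : ℝ)) : ℂ) :=
    Complex.measurable_ofReal.comp (by fun_prop)
  have h2 : Measurable fun u : ℝ =>
      (((2 * Real.pi * μ * u - t * Real.log u : ℝ)) : ℂ) * Complex.I :=
    (Complex.measurable_ofReal.comp (by fun_prop)).mul_const _
  exact h1.mul (Complex.measurable_exp.comp h2)

theorem intervalIntegrable_gI {a b : ℝ} (ha : 0 ≤ a) (hb : 0 ≤ b) (t : ℝ) (μ : ℕ) :
    IntervalIntegrable (gI t μ) volume a b := by
  have h := intervalIntegrable_sqrt ha hb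
  refine h.mono_fun (aestronglyMeasurable_gI t μ _) ?_
  refine Filter.Eventually.of_forall fun u => ?_
  show ‖gI t μ u‖ ≤ ‖1 / Real.sqrt u‖
  rw [norm_gI, Real.norm_eq_abs, abs_of_nonneg (by positivity)]

/-- trivial bound. -/
theorem norm_integral_gI_le {a b : ℝ} (ha : 0 ≤ a) (hab : a ≤ b) (t : ℝ) (μ : ℕ) :
    ‖∫ u in a..b, gI t μ u‖ ≤ 2 * (Real.sqrt b - Real.sqrt a) := by
  rw [← integral_sqrt ha (ha.trans hab)]
  refine (intervalIntegral.norm_integral_le_integral_norm hab).trans (le_of_eq ?_)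
  apply intervalIntegral.integral_congr
  intro u _
  exact norm_gI t μ u

theorem norm_integral_gI_le' {a b : ℝ} (ha : 0 < a) (hab : a ≤ b) (t : ℝ) (μ : ℕ) :
    ‖∫ u in a..b, gI t μ u‖ ≤ (b - a) / Real.sqrt a := by
  refine (norm_integral_gI_le ha.le hab t μ).trans ?_
  have hs : 0 < Real.sqrt a := Real.sqrt_pos.mpr ha
  have hs2 : Real.sqrt a ≤ Real.sqrt b := Real.sqrt_le_sqrt hab
  rw [le_div_iff₀ hs]
  have e1 := Real.sq_sqrt ha.le
  have e2 := Real.sq_sqrt (ha.le.trans hab)
  nlinarith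

/-- first derivative test on an interval without stationary point. -/
theorem gI_test_aux {a b t : ℝ} {μ : ℕ} {M : ℝ} (ha : 0 < a) (hab : a ≤ b) (ht : 0 ≤ t)
    (hne : ∀ u ∈ Set.Icc a b, 2 * Real.pi * μ * u - t ≠ 0)
    (hMa : |Real.sqrt a / (2 * Real.pi * μ * a - t)| ≤ M)
    (hMb : |Real.sqrt b / (2 * Real.pi * μ * b - t)| ≤ M) :
    ‖∫ u in a..b, gI t μ u‖ ≤ 4 * M := by
  have hpos : ∀ u ∈ Set.Icc a b, 0 < u := fun u hu => ha.trans_le hu.1
  have key := norm_integral_deriv_ei_le' (a := a) (b := b) (M := M)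
    (h := fun u => 2 * Real.pi * μ * u - t * Real.log u)
    (h' := fun u => 2 * Real.pi * μ - t / u)
    (p := fun u => Real.sqrt u / (2 * Real.pi * μ * u - t))
    (p' := fun u => ((1 / (2 * Real.sqrt u)) * (2 * Real.pi * μ * u - t) -
      Real.sqrt u * (2 * Real.pi * μ)) / (2 * Real.pi * μ * u - t) ^ 2)
    hab ?_ ?_ ?_ ?_ ?_ hMa hMb
  · refine le_trans (le_of_eq ?_) key
    congr 1
    apply intervalIntegral.integral_congr
    intro u hu
    rw [Set.uIcc_of_le hab] at hu
    have hu0 := hpos u hu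
    have hs : 0 < Real.sqrt u := Real.sqrt_pos.mpr hu0
    simp only [gI]
    congr 1
    norm_cast
    have h1 := hne u hu
    have h2 : 2 * Real.pi * μ - t / u = (2 * Real.pi * μ * u - t) / u := by field_simp
    rw [h2]
    have h3 : Real.sqrt u / (2 * Real.pi * μ * u - t) * ((2 * Real.pi * μ * u - t) / u) =
        Real.sqrt u / u := by
      field_simp
    rw [h3]
    have h4 := Real.mul_self_sqrt hu0.le
    rw [div_eq_div_iff hs.ne' hu0.ne']
    linarith
  · intro u hu
    have hu0 := hpos u hu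
    have h1 : HasDerivAt (fun u : ℝ => 2 * Real.pi * μ * u) (2 * Real.pi * μ) u := by
      simpa using (hasDerivAt_id u).const_mul (2 * Real.pi * μ)
    have h2 : HasDerivAt (fun u : ℝ => t * Real.log u) (t * u⁻¹) u :=
      (Real.hasDerivAt_log hu0.ne').const_mul t
    exact (h1.sub h2).congr_deriv (by rw [div_eq_mul_inv])
  · intro u hu
    have hu0 := hpos u hu
    have h1 : HasDerivAt (fun u : ℝ => 2 * Real.pi * μ * u - t) (2 * Real.pi * μ) u := by
      simpa using ((hasDerivAt_id u).const_mul (2 * Real.pi * μ)).sub_const t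
    exact (Real.hasDerivAt_sqrt hu0.ne').div h1 (hne u hu)
  · exact continuousOn_const.sub (continuousOn_const.div continuousOn_id
      (fun u hu => (hpos u hu).ne'))
  · apply ContinuousOn.div
    · apply ContinuousOn.sub
      · apply ContinuousOn.mul
        · apply ContinuousOn.div continuousOn_const
          · exact continuousOn_const.mul Real.continuous_sqrt.continuousOn
          · intro u hu
            have := Real.sqrt_pos.mpr (hpos u hu)
            positivity
        · fun_prop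
      · exact Real.continuous_sqrt.continuousOn.mul continuousOn_const
    · fun_prop
    · intro u hu; exact pow_ne_zero 2 (hne u hu)
  · right
    intro u hu
    have hu0 := hpos u hu
    have hs : 0 < Real.sqrt u := Real.sqrt_pos.mpr hu0
    apply div_nonpos_of_nonpos_of_nonneg _ (sq_nonneg _)
    have h4 := Real.mul_self_sqrt hu0.le
    have e1 : (1 / (2 * Real.sqrt u)) * (2 * Real.pi * μ * u - t) -
        Real.sqrt u * (2 * Real.pi * μ) =
        -(1 / (2 * Real.sqrt u)) * (2 * Real.pi * μ * u + t) := by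
      have : Real.sqrt u * (2 * Real.pi * μ) =
          (1 / (2 * Real.sqrt u)) * (2 * (2 * Real.pi * μ * u)) := by
        rw [div_mul_eq_mul_div, eq_div_iff (by positivity)]
        linear_combination (4 * Real.pi * μ) * h4
      rw [this]; ring
    rw [e1]
    have h5 : 0 ≤ (1 / (2 * Real.sqrt u)) * (2 * Real.pi * μ * u + t) := by
      have := Real.pi_pos
      positivity
    linarith

/-- the interval `[a,b]` to the left of the stationary point. -/
theorem gI_left {a b t : ℝ} {μ : ℕ} (ha : 0 < a) (hab : a ≤ b)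
    (hb : 2 * Real.pi * μ * b < t) :
    ‖∫ u in a..b, gI t μ u‖ ≤ 4 * (Real.sqrt b / (t - 2 * Real.pi * μ * b)) := by
  have hpi := Real.pi_pos
  have hb0 : 0 < b := ha.trans_le hab
  have ht : 0 ≤ t := le_trans (by positivity) hb.le
  have hlt : ∀ u ∈ Set.Icc a b, 2 * Real.pi * μ * u < t := fun u hu => by
    have : 2 * Real.pi * μ * u ≤ 2 * Real.pi * μ * b := by
      apply mul_le_mul_of_nonneg_left hu.2; positivity
    linarith
  have habs : ∀ u ∈ Set.Icc a b, |Real.sqrt u / (2 * Real.pi * μ * u - t)| =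
      Real.sqrt u / (t - 2 * Real.pi * μ * u) := fun u hu => by
    have h1 := hlt u hu
    rw [abs_div, abs_of_nonneg (Real.sqrt_nonneg u), abs_of_neg (by linarith)]
    congr 1; ring
  refine gI_test_aux ha hab ht (fun u hu => (by have := hlt u hu; linarith : _ < (0:ℝ)).ne) ?_ ?_
  · rw [habs a (Set.left_mem_Icc.mpr hab)]
    have h1 := hlt a (Set.left_mem_Icc.mpr hab)
    have h2 : 2 * Real.pi * μ * a ≤ 2 * Real.pi * μ * b := by
      apply mul_le_mul_of_nonneg_left hab; positivity
    exact div_le_div₀ (Real.sqrt_nonneg b) (Real.sqrt_le_sqrt hab) (by linarith) (by linarith)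
  · rw [habs b (Set.right_mem_Icc.mpr hab)]

/-- the interval `[0,b]` to the left of the stationary point. -/
theorem gI_left_zero {b t : ℝ} {μ : ℕ} (hb0 : 0 < b) (hb : 2 * Real.pi * μ * b < t) :
    ‖∫ u in (0 : ℝ)..b, gI t μ u‖ ≤ 4 * (Real.sqrt b / (t - 2 * Real.pi * μ * b)) := by
  apply le_of_forall_pos_le_add
  intro ε hε
  set δ : ℝ := min b ((ε / 2) ^ 2) with hδ
  have hδ0 : 0 < δ := lt_min hb0 (by positivity)
  have hδb : δ ≤ b := min_le_left _ _
  have h1 : ∫ u in (0 : ℝ)..b, gI t μ u =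
      (∫ u in (0 : ℝ)..δ, gI t μ u) + ∫ u in δ..b, gI t μ u :=
    (intervalIntegral.integral_add_adjacent_intervals
      (intervalIntegrable_gI le_rfl hδ0.le t μ) (intervalIntegrable_gI hδ0.le hb0.le t μ)).symm
  rw [h1]
  refine (norm_add_le _ _).trans ?_
  have h2 := norm_integral_gI_le (le_refl 0) hδ0.le t μ
  have h3 := gI_left hδ0 hδb hb
  have h4 : Real.sqrt δ ≤ ε / 2 := by
    rw [Real.sqrt_le_left (by positivity)]
    exact min_le_right _ _
  rw [Real.sqrt_zero, sub_zero] at h2
  linarith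

/-- the interval `[a,b]` to the right of the stationary point. -/
theorem gI_right {a b t : ℝ} {μ : ℕ} (ht : 0 ≤ t) (ha : 0 < a) (hab : a ≤ b)
    (h : t < 2 * Real.pi * μ * a) :
    ‖∫ u in a..b, gI t μ u‖ ≤ 4 * (Real.sqrt a / (2 * Real.pi * μ * a - t)) := by
  have hpi := Real.pi_pos
  have hb0 : 0 < b := ha.trans_le hab
  have hlt : ∀ u ∈ Set.Icc a b, t < 2 * Real.pi * μ * u := fun u hu => by
    have : 2 * Real.pi * μ * a ≤ 2 * Real.pi * μ * u := by
      apply mul_le_mul_of_nonneg_left hu.1; positivity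
    linarith
  have habs : ∀ u ∈ Set.Icc a b, |Real.sqrt u / (2 * Real.pi * μ * u - t)| =
      Real.sqrt u / (2 * Real.pi * μ * u - t) := fun u hu => by
    have h1 := hlt u hu
    rw [abs_div, abs_of_nonneg (Real.sqrt_nonneg u), abs_of_pos (by linarith)]
  refine gI_test_aux ha hab ht
    (fun u hu => (by have := hlt u hu; linarith : (0:ℝ) < _).ne') ?_ ?_
  · rw [habs a (Set.left_mem_Icc.mpr hab)]
  · rw [habs b (Set.right_mem_Icc.mpr hab)]
    have hsa : 0 < Real.sqrt a := Real.sqrt_pos.mpr ha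
    have hsab : Real.sqrt a ≤ Real.sqrt b := Real.sqrt_le_sqrt hab
    have hb1 := hlt b (Set.right_mem_Icc.mpr hab)
    rw [div_le_div_iff₀ (by linarith) (by linarith)]
    -- √b (c a - t) ≤ √a (c b - t)
    have ea := Real.mul_self_sqrt ha.le
    have eb := Real.mul_self_sqrt hb0.le
    have e : Real.sqrt a * (2 * Real.pi * μ * b - t) - Real.sqrt b * (2 * Real.pi * μ * a - t) =
        (Real.sqrt b - Real.sqrt a) * (2 * Real.pi * μ * (Real.sqrt a * Real.sqrt b) + t) := by
      linear_combination (2 * Real.pi * μ) * Real.sqrt b * ea - (2 * Real.pi * μ) * Real.sqrt a * eb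
    have : 0 ≤ (Real.sqrt b - Real.sqrt a) * (2 * Real.pi * μ * (Real.sqrt a * Real.sqrt b) + t) := by
      apply mul_nonneg (by linarith)
      positivity
    linarith

end Pool.Agent.H97.Cubic
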