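import Pool.Agent.H97.Cubic.AFEa

/-! Module AFE of the cubic moment project (`MP_56c76e_nt`), part 2: assembly. -/

set_option autoImplicit false

open Finset MeasureTheory intervalIntegral

namespace Pool.Agent.H97.Cubic

open Pool.Agent.H98.Cubic

theorem gI_eq_cpow {t u : ℝ} (hu : 0 < u) :
    gI t 0 u = (u : ℂ) ^ (-1 / 2 - t * Complex.I) := by
  unfold gI ei
  rw [Complex.cpow_def_of_ne_zero (by exact_mod_cast hu.ne'), ← Complex.ofReal_log hu.le,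
    one_div_sqrt_eq u hu.le, Real.rpow_def_of_pos hu]
  push_cast
  rw [← Complex.exp_add]
  congr 1
  ring

theorem integral_gI_zero {t a b : ℝ} (ha : 0 < a) (hab : a ≤ b) :
    ∫ u in a..b, gI t 0 u = ((b : ℂ) ^ (1 / 2 - t * Complex.I) - (a : ℂ) ^ (1 / 2 - t * Complex.I)) /
      (1 / 2 - t * Complex.I) := by
  have h1 : ∫ u in a..b, gI t 0 u = ∫ u in a..b, (u : ℂ) ^ (-1 / 2 - t * Complex.I) := by
    apply intervalIntegral.integral_congr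
    intro u hu
    rw [Set.uIcc_of_le hab] at hu
    exact gI_eq_cpow (ha.trans_le hu.1)
  rw [h1, integral_cpow]
  · have : (-1 / 2 - (t : ℂ) * Complex.I + 1) = 1 / 2 - t * Complex.I := by ring
    rw [this]
  · left
    simp
    norm_num

theorem zt_eq (t : ℝ) (n : ℕ) : zt n t = gI t 0 n := by
  unfold zt gI
  simp

theorem norm_zt (t : ℝ) (n : ℕ) : ‖zt n t‖ = 1 / Real.sqrt n := by
  unfold zt
  rw [norm_mul, norm_ei, mul_one, Complex.norm_real, Real.norm_eq_abs, abs_of_nonneg (by positivity)]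

theorem sum_inv_sqrt_le (M : ℕ) : ∑ n ∈ Icc 1 M, 1 / Real.sqrt n ≤ 2 * Real.sqrt M := by
  induction M with
  | zero => simp
  | succ M ih =>
    rw [Finset.sum_Icc_succ_top (by omega)]
    have h1 : (0 : ℝ) < Real.sqrt ((M : ℝ) + 1) := Real.sqrt_pos.mpr (by positivity)
    have h2 := Real.mul_self_sqrt (show (0 : ℝ) ≤ M by positivity)
    have h3 := Real.mul_self_sqrt (show (0 : ℝ) ≤ (M : ℝ) + 1 by positivity)
    have h4 : 1 / Real.sqrt ((M : ℝ) + 1) ≤ 2 * Real.sqrt ((M : ℝ) + 1) - 2 * Real.sqrt M := by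
      rw [div_le_iff₀ h1]
      nlinarith [sq_nonneg (Real.sqrt ((M : ℝ) + 1) - Real.sqrt M)]
    push_cast
    linarith

theorem norm_A_le (t : ℝ) : ‖A t‖ ≤ 2 * Real.sqrt ⌊Real.sqrt (t / (2 * Real.pi))⌋₊ := by
  unfold A
  refine (norm_sum_le _ _).trans ?_
  refine le_trans (le_of_eq ?_) (sum_inv_sqrt_le _)
  exact Finset.sum_congr rfl fun n _ => norm_zt t n

theorem sum_inv_le_log (M : ℕ) : ∑ n ∈ Icc 1 M, 1 / (n : ℝ) ≤ 1 + Real.log (1 + M) := by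
  have h := harmonic_le_one_add_log M
  have h2 : (harmonic M : ℝ) = ∑ n ∈ Icc 1 M, 1 / (n : ℝ) := by
    rw [harmonic_eq_sum_Icc]; push_cast
    exact Finset.sum_congr rfl fun n _ => by rw [one_div]
  rw [← h2]
  refine h.trans ?_
  rcases Nat.eq_zero_or_pos M with h0 | h0
  · subst h0; simp
  · have : Real.log M ≤ Real.log (1 + M) := by
      apply Real.log_le_log (by exact_mod_cast h0); linarith
    linarith

/-- reflection of the sum `∑ 1/(M-1-μ)`. -/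
theorem sum_reflect (M : ℕ) (hM : 3 ≤ M) :
    ∑ μ ∈ Icc 1 (M - 2), 1 / ((M : ℝ) - 1 - μ) = ∑ n ∈ Icc 1 (M - 2), 1 / (n : ℝ) := by
  refine Finset.sum_nbij' (fun μ => M - 1 - μ) (fun μ => M - 1 - μ) ?_ ?_ ?_ ?_ ?_
  · intro a ha; rw [Finset.mem_Icc] at ha ⊢; omega
  · intro a ha; rw [Finset.mem_Icc] at ha ⊢; omega
  · intro a ha; rw [Finset.mem_Icc] at ha; omega
  · intro a ha; rw [Finset.mem_Icc] at ha; omega
  · intro a ha; rw [Finset.mem_Icc] at ha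
    congr 1
    rw [Nat.cast_sub (by omega), Nat.cast_sub (by omega)]
    push_cast; ring

/-- integrals over `[0, M+1]`, `μ ≤ M - 2`. -/
theorem low1 {t : ℝ} {M μ : ℕ} (hM : 3 ≤ M) (h1 : 2 * Real.pi * (M : ℝ) ^ 2 ≤ t)
    (hμ2 : μ ≤ M - 2) :
    ‖∫ u in (0 : ℝ)..((M : ℝ) + 1), gI t μ u‖ ≤
      (1 / Real.sqrt ((M : ℝ) + 1)) * (1 / ((M : ℝ) - 1 - μ)) := by
  have hpi := Real.pi_gt_three
  have hMr : (3 : ℝ) ≤ M := by exact_mod_cast hM
  have hμr : (μ : ℝ) ≤ (M : ℝ) - 2 := by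
    have : μ + 2 ≤ M := by omega
    have h' : ((μ + 2 : ℕ) : ℝ) ≤ M := by exact_mod_cast this
    push_cast at h'; linarith
  have hb0 : (0 : ℝ) < (M : ℝ) + 1 := by linarith
  have hk : (0 : ℝ) < (M : ℝ) - 1 - μ := by linarith
  have hlow : 2 * Real.pi * (((M : ℝ) + 1) * ((M : ℝ) - 1 - μ)) ≤ t - 2 * Real.pi * μ * ((M : ℝ) + 1) := by
    nlinarith
  have hpos : 0 < 2 * Real.pi * (((M : ℝ) + 1) * ((M : ℝ) - 1 - μ)) := by positivity
  refine (gI_left_zero hb0 (by linarith)).trans ?_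
  have hs : 0 < Real.sqrt ((M : ℝ) + 1) := Real.sqrt_pos.mpr hb0
  have e := Real.mul_self_sqrt hb0.le
  calc 4 * (Real.sqrt ((M : ℝ) + 1) / (t - 2 * Real.pi * μ * ((M : ℝ) + 1)))
      ≤ 4 * (Real.sqrt ((M : ℝ) + 1) / (2 * Real.pi * (((M : ℝ) + 1) * ((M : ℝ) - 1 - μ)))) := by
        gcongr
    _ = (4 / (2 * Real.pi)) * ((1 / Real.sqrt ((M : ℝ) + 1)) * (1 / ((M : ℝ) - 1 - μ))) := by
        have : Real.sqrt ((M : ℝ) + 1) / (2 * Real.pi * (((M : ℝ) + 1) * ((M : ℝ) - 1 - μ))) =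
            Real.sqrt ((M : ℝ) + 1) / (2 * Real.pi * ((Real.sqrt ((M : ℝ) + 1) *
              Real.sqrt ((M : ℝ) + 1)) * ((M : ℝ) - 1 - μ))) := by rw [e]
        rw [this]
        field_simp
    _ ≤ 1 * ((1 / Real.sqrt ((M : ℝ) + 1)) * (1 / ((M : ℝ) - 1 - μ))) := by
        apply mul_le_mul_of_nonneg_right _ (by positivity)
        rw [div_le_one (by positivity)]; linarith
    _ = _ := one_mul _

/-- integrals over `[0, M+1]`, `μ ≤ M`. -/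
theorem low2 {t : ℝ} {M μ : ℕ} (hM : 3 ≤ M) (h1 : 2 * Real.pi * (M : ℝ) ^ 2 ≤ t)
    (hμ2 : μ ≤ M) :
    ‖∫ u in (0 : ℝ)..((M : ℝ) + 1), gI t μ u‖ ≤ 4 / Real.sqrt ((M : ℝ) + 1) := by
  have hpi := Real.pi_gt_three
  have hMr : (3 : ℝ) ≤ M := by exact_mod_cast hM
  have hμr : (μ : ℝ) ≤ M := by exact_mod_cast hμ2
  have hb0 : (0 : ℝ) < (M : ℝ) + 1 := by linarith
  have hb1 : (0 : ℝ) < (M : ℝ) - 1 := by linarith
  have hsplit : ∫ u in (0 : ℝ)..((M : ℝ) + 1), gI t μ u =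
      (∫ u in (0 : ℝ)..((M : ℝ) - 1), gI t μ u) + ∫ u in ((M : ℝ) - 1)..((M : ℝ) + 1), gI t μ u :=
    (intervalIntegral.integral_add_adjacent_intervals
      (intervalIntegrable_gI le_rfl hb1.le t μ) (intervalIntegrable_gI hb1.le hb0.le t μ)).symm
  rw [hsplit]
  have hlow : 2 * Real.pi * (M : ℝ) ≤ t - 2 * Real.pi * μ * ((M : ℝ) - 1) := by
    have : 2 * Real.pi * μ * ((M : ℝ) - 1) ≤ 2 * Real.pi * M * ((M : ℝ) - 1) := by gcongr
    nlinarith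
  have hpos : 0 < 2 * Real.pi * (M : ℝ) := by positivity
  have hs1 : 0 < Real.sqrt ((M : ℝ) + 1) := Real.sqrt_pos.mpr hb0
  have hs2 : 0 < Real.sqrt ((M : ℝ) - 1) := Real.sqrt_pos.mpr hb1
  have e1 := Real.mul_self_sqrt hb0.le
  have e2 := Real.mul_self_sqrt hb1.le
  have h2 : ‖∫ u in (0 : ℝ)..((M : ℝ) - 1), gI t μ u‖ ≤ 1 / Real.sqrt ((M : ℝ) + 1) := by
    refine (gI_left_zero hb1 (by linarith)).trans ?_
    calc 4 * (Real.sqrt ((M : ℝ) - 1) / (t - 2 * Real.pi * μ * ((M : ℝ) - 1)))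
        ≤ 4 * (Real.sqrt ((M : ℝ) - 1) / (2 * Real.pi * (M : ℝ))) := by gcongr
      _ ≤ 1 / Real.sqrt ((M : ℝ) + 1) := by
        rw [← mul_div_assoc, div_le_div_iff₀ hpos hs1]
        have h3 : Real.sqrt ((M : ℝ) - 1) * Real.sqrt ((M : ℝ) + 1) ≤ M := by
          rw [← Real.sqrt_mul hb1.le, Real.sqrt_le_left (by linarith)]
          nlinarith
        nlinarith
  have h3 : ‖∫ u in ((M : ℝ) - 1)..((M : ℝ) + 1), gI t μ u‖ ≤ 3 / Real.sqrt ((M : ℝ) + 1) := by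
    refine (norm_integral_gI_le' hb1 (by linarith) t μ).trans ?_
    rw [div_le_div_iff₀ hs2 hs1]
    have h4 : Real.sqrt ((M : ℝ) + 1) ≤ 3 / 2 * Real.sqrt ((M : ℝ) - 1) := by
      rw [Real.sqrt_le_left (by positivity)]
      nlinarith
    nlinarith
  refine (norm_add_le _ _).trans ((add_le_add h2 h3).trans (le_of_eq ?_))
  ring

theorem sum_low {t : ℝ} {M : ℕ} (hM : 3 ≤ M) (h1 : 2 * Real.pi * (M : ℝ) ^ 2 ≤ t) :
    ∑ μ ∈ Icc 1 M, ‖∫ u in (0 : ℝ)..((M : ℝ) + 1), gI t μ u‖ ≤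
      (9 + Real.log (1 + M)) / Real.sqrt ((M : ℝ) + 1) := by
  obtain ⟨K, rfl⟩ : ∃ K, M = K + 2 := ⟨M - 2, by omega⟩
  rw [Finset.sum_Icc_succ_top (by omega), Finset.sum_Icc_succ_top (by omega)]
  have hs1 : 0 < Real.sqrt (((K + 2 : ℕ) : ℝ) + 1) := Real.sqrt_pos.mpr (by positivity)
  have h2 : ∑ μ ∈ Icc 1 K, ‖∫ u in (0 : ℝ)..(((K + 2 : ℕ) : ℝ) + 1), gI t μ u‖ ≤
      (1 + Real.log (1 + ((K + 2 : ℕ) : ℝ))) / Real.sqrt (((K + 2 : ℕ) : ℝ) + 1) := by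
    calc ∑ μ ∈ Icc 1 K, ‖∫ u in (0 : ℝ)..(((K + 2 : ℕ) : ℝ) + 1), gI t μ u‖
        ≤ ∑ μ ∈ Icc 1 K, (1 / Real.sqrt (((K + 2 : ℕ) : ℝ) + 1)) *
            (1 / (((K + 2 : ℕ) : ℝ) - 1 - μ)) := by
          apply Finset.sum_le_sum
          intro μ hμ
          rw [Finset.mem_Icc] at hμ
          exact low1 hM h1 (by omega)
      _ = (1 / Real.sqrt (((K + 2 : ℕ) : ℝ) + 1)) * ∑ n ∈ Icc 1 K, 1 / (n : ℝ) := by
          rw [← Finset.mul_sum]
          congr 1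
          exact sum_reflect (K + 2) hM
      _ ≤ (1 / Real.sqrt (((K + 2 : ℕ) : ℝ) + 1)) * (1 + Real.log (1 + ((K + 2 : ℕ) : ℝ))) := by
          apply mul_le_mul_of_nonneg_left _ (by positivity)
          refine (sum_inv_le_log K).trans ?_
          have : Real.log (1 + K) ≤ Real.log (1 + ((K + 2 : ℕ) : ℝ)) := by
            apply Real.log_le_log (by positivity)
            push_cast; linarith
          linarith
      _ = _ := by ring
  have h3 := low2 (μ := K + 1) hM h1 (by omega)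
  have h4 := low2 (μ := K + 1 + 1) hM h1 (by omega)
  have e : (9 + Real.log (1 + ((K + 2 : ℕ) : ℝ))) / Real.sqrt (((K + 2 : ℕ) : ℝ) + 1) =
      (1 + Real.log (1 + ((K + 2 : ℕ) : ℝ))) / Real.sqrt (((K + 2 : ℕ) : ℝ) + 1) +
        4 / Real.sqrt (((K + 2 : ℕ) : ℝ) + 1) + 4 / Real.sqrt (((K + 2 : ℕ) : ℝ) + 1) := by ring
  rw [e]
  exact add_le_add (add_le_add h2 h3) h4

/-- the frequency `M + 1`. -/
theorem top_freq {t X : ℝ} {M : ℕ} (ht : 0 ≤ t) (h2 : t ≤ 2 * Real.pi * ((M : ℝ) + 1) ^ 2)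
    (hX : (M : ℝ) + 2 ≤ X) :
    ‖∫ u in ((M : ℝ) + 1)..X, gI t (M + 1) u‖ ≤ 2 / Real.sqrt ((M : ℝ) + 1) := by
  have hpi := Real.pi_gt_three
  have hMr : (0 : ℝ) ≤ M := by positivity
  have hb0 : (0 : ℝ) < (M : ℝ) + 1 := by linarith
  have hb1 : (0 : ℝ) < (M : ℝ) + 2 := by linarith
  have hX0 : (0 : ℝ) < X := by linarith
  have hsplit : ∫ u in ((M : ℝ) + 1)..X, gI t (M + 1) u =
      (∫ u in ((M : ℝ) + 1)..((M : ℝ) + 2), gI t (M + 1) u) +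
        ∫ u in ((M : ℝ) + 2)..X, gI t (M + 1) u :=
    (intervalIntegral.integral_add_adjacent_intervals
      (intervalIntegrable_gI hb0.le hb1.le t _) (intervalIntegrable_gI hb1.le hX0.le t _)).symm
  rw [hsplit]
  have hs1 : 0 < Real.sqrt ((M : ℝ) + 1) := Real.sqrt_pos.mpr hb0
  have hs2 : 0 < Real.sqrt ((M : ℝ) + 2) := Real.sqrt_pos.mpr hb1
  have e1 := Real.mul_self_sqrt hb0.le
  have h3 : ‖∫ u in ((M : ℝ) + 1)..((M : ℝ) + 2), gI t (M + 1) u‖ ≤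
      1 / Real.sqrt ((M : ℝ) + 1) := by
    refine (norm_integral_gI_le' hb0 (by linarith) t _).trans (le_of_eq ?_)
    ring
  have hlow : 2 * Real.pi * ((M : ℝ) + 1) ≤
      2 * Real.pi * ((M + 1 : ℕ) : ℝ) * ((M : ℝ) + 2) - t := by
    push_cast
    nlinarith
  have hpos : 0 < 2 * Real.pi * ((M : ℝ) + 1) := by positivity
  have h4 : ‖∫ u in ((M : ℝ) + 2)..X, gI t (M + 1) u‖ ≤ 1 / Real.sqrt ((M : ℝ) + 1) := by
    refine (gI_right ht hb1 hX (by linarith)).trans ?_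
    calc 4 * (Real.sqrt ((M : ℝ) + 2) / (2 * Real.pi * ((M + 1 : ℕ) : ℝ) * ((M : ℝ) + 2) - t))
        ≤ 4 * (Real.sqrt ((M : ℝ) + 2) / (2 * Real.pi * ((M : ℝ) + 1))) := by gcongr
      _ ≤ 1 / Real.sqrt ((M : ℝ) + 1) := by
        rw [← mul_div_assoc, div_le_div_iff₀ hpos hs1]
        have h5 : Real.sqrt ((M : ℝ) + 2) ≤ 3 / 2 * Real.sqrt ((M : ℝ) + 1) := by
          rw [Real.sqrt_le_left (by positivity)]
          nlinarith
        nlinarith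
  refine (norm_add_le _ _).trans ((add_le_add h3 h4).trans (le_of_eq ?_))
  ring

end Pool.Agent.H97.Cubic
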