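import Pool.Agent.H97.Cubic.AFEb

/-! Module AFE of the cubic moment project (`MP_56c76e_nt`), part 3: use of [TP]. -/

set_option autoImplicit false

open Finset MeasureTheory intervalIntegral

namespace Pool.Agent.H97.Cubic

open Pool.Agent.H98.Cubic

theorem hasDerivAt_inv_sqrt {x : ℝ} (hx : 0 < x) :
    HasDerivAt (fun u : ℝ => 1 / Real.sqrt u) (-(1 / (2 * Real.sqrt x)) / x) x := by
  have h := (Real.hasDerivAt_sqrt hx.ne').inv (Real.sqrt_pos.mpr hx).ne'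
  have h2 : HasDerivAt (fun u : ℝ => 1 / Real.sqrt u) (-(1 / (2 * Real.sqrt x)) / Real.sqrt x ^ 2) x := by
    refine h.congr_of_eventuallyEq ?_
    filter_upwards with u
    simp [one_div]
  rwa [Real.sq_sqrt hx.le] at h2

/-- consequence of [TP]. -/
theorem tp_zeta (hTP : TTP) : ∃ C : ℝ, 0 < C ∧ ∀ (t : ℝ) (M X : ℕ), 0 ≤ t → M + 1 ≤ X →
    t ≤ 2 * Real.pi * ((M : ℝ) + 1) ^ 2 →
    ‖∑ n ∈ Icc (M + 1) X, zt n t - ∑ μ ∈ range (M + 2), ∫ u in ((M : ℝ) + 1)..(X : ℝ), gI t μ u‖ ≤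
      C * (1 / Real.sqrt ((M : ℝ) + 1)) * (1 + Real.log (1 + ((M : ℝ) + 1))) := by
  obtain ⟨C, hC, h⟩ := hTP
  refine ⟨C, hC, fun t M X ht hMX htM => ?_⟩
  have hpi := Real.pi_pos
  have hM0 : (0 : ℝ) ≤ M := by positivity
  have hMXr : (M : ℝ) + 1 ≤ X := by exact_mod_cast hMX
  have hpos : ∀ x ∈ Set.Icc ((M : ℝ) + 1) (X : ℝ), 0 < x := fun x hx => by
    have := hx.1; linarith
  have key := h ((M : ℝ) + 1) (X : ℝ) (-((M : ℤ) + 1)) 0
    (fun x => -(t / (2 * Real.pi)) * Real.log x)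
    (fun x => -(t / (2 * Real.pi)) * x⁻¹)
    (fun x => -(t / (2 * Real.pi)) * (-(x ^ 2)⁻¹))
    (fun x => 1 / Real.sqrt x) (fun x => -(1 / (2 * Real.sqrt x)) / x)
    hMXr (by omega) ?_ ?_ ?_ ?_ ?_ ?_ ?_ ?_ ?_
  · have e1 : ∑ n ∈ Icc ⌈((M : ℝ) + 1)⌉ ⌊(X : ℝ)⌋, (((1 / Real.sqrt (n : ℝ) : ℝ)) : ℂ) *
        ee (-(t / (2 * Real.pi)) * Real.log (n : ℝ)) = ∑ n ∈ Icc (M + 1) X, zt n t := by
      have hc : ⌈((M : ℝ) + 1)⌉ = ((M + 1 : ℕ) : ℤ) := by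
        have : ((M : ℝ) + 1) = (((M + 1 : ℕ) : ℤ) : ℝ) := by push_cast; ring
        rw [this, Int.ceil_intCast]
      have hf : ⌊(X : ℝ)⌋ = (X : ℤ) := by exact_mod_cast Int.floor_natCast (R := ℝ) X
      rw [hc, hf]
      symm
      refine Finset.sum_bij (fun n _ => (n : ℤ)) ?_ ?_ ?_ ?_
      · intro a ha; rw [Finset.mem_Icc] at ha ⊢; omega
      · intro a _ b _ hab; exact_mod_cast hab
      · intro b hb
        rw [Finset.mem_Icc] at hb
        exact ⟨b.toNat, by rw [Finset.mem_Icc]; omega, by omega⟩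
      · intro a _
        unfold zt ee
        rw [Int.cast_natCast]
        congr 2
        field_simp
    have e2 : ∑ ν ∈ Icc (-((M : ℤ) + 1)) 0, ∫ x in ((M : ℝ) + 1)..(X : ℝ),
        (((1 / Real.sqrt x : ℝ)) : ℂ) * ee (-(t / (2 * Real.pi)) * Real.log x - (ν : ℝ) * x) =
        ∑ μ ∈ range (M + 2), ∫ u in ((M : ℝ) + 1)..(X : ℝ), gI t μ u := by
      symm
      refine Finset.sum_bij (fun n _ => -(n : ℤ)) ?_ ?_ ?_ ?_
      · intro a ha; rw [Finset.mem_range] at ha; rw [Finset.mem_Icc]; omega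
      · intro a _ b _ hab; omega
      · intro b hb
        rw [Finset.mem_Icc] at hb
        exact ⟨(-b).toNat, by rw [Finset.mem_range]; omega, by omega⟩
      · intro a _
        apply intervalIntegral.integral_congr
        intro x _
        simp only [gI, ee]
        congr 2
        push_cast
        field_simp
        ring
    rw [e1, e2] at key
    refine key.trans (le_of_eq ?_)
    congr 3
    push_cast; ring
  · intro x hx
    have := hpos x hx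
    exact (Real.hasDerivAt_log this.ne').const_mul _
  · intro x hx
    have := hpos x hx
    exact (hasDerivAt_inv this.ne').const_mul _
  · intro x hx
    exact hasDerivAt_inv_sqrt (hpos x hx)
  · apply ContinuousOn.mul continuousOn_const
    apply ContinuousOn.neg
    apply ContinuousOn.inv₀ (by fun_prop)
    intro x hx
    exact pow_ne_zero 2 (hpos x hx).ne'
  · apply ContinuousOn.div _ continuousOn_id (fun x hx => (hpos x hx).ne')
    apply ContinuousOn.neg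
    apply ContinuousOn.div continuousOn_const
    · exact continuousOn_const.mul Real.continuous_sqrt.continuousOn
    · intro x hx
      have := Real.sqrt_pos.mpr (hpos x hx)
      positivity
  · intro x hx
    have hx0 := hpos x hx
    have hx1 := hx.1
    have h0 : 0 ≤ t / (2 * Real.pi) * x⁻¹ := by positivity
    constructor
    · push_cast
      have h1 : t / (2 * Real.pi) ≤ ((M : ℝ) + 1) ^ 2 := by
        rw [div_le_iff₀ (by positivity)]; linarith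
      have h2 : t / (2 * Real.pi) * x⁻¹ ≤ (M : ℝ) + 1 := by
        rw [← div_eq_mul_inv, div_le_iff₀ hx0]
        nlinarith
      linarith
    · push_cast; linarith
  · left
    intro x hx
    have hx0 := hpos x hx
    have : 0 ≤ t / (2 * Real.pi) * (x ^ 2)⁻¹ := by positivity
    linarith
  · intro x hx
    positivity
  · intro x hx
    have hx0 := hpos x hx
    have : 0 ≤ (1 / (2 * Real.sqrt x)) / x := by positivity
    rw [neg_div]; linarith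

/-- the approximate functional equation for `ζ(1/2+it)`, with explicit error parameters. -/
theorem afe_zeta (hTP : TTP) (hZ1 : TZ1) (hZ2 : TZ2) : ∃ C : ℝ, 0 < C ∧ ∀ t : ℝ, 100 ≤ t →
    ‖riemannZeta (1 / 2 + t * Complex.I) - (A t + chiT t * (starRingEnd ℂ) (A t))‖ ≤
      C * t ^ (-(1 / 5) : ℝ) := by
  obtain ⟨C₀, hC₀, h0⟩ := tp_zeta hTP
  obtain ⟨C₁, hC₁, h1⟩ := hZ1
  obtain ⟨C₂, hC₂, h2⟩ := hZ2
  refine ⟨C₁ + C₂ + 1 + (14 * C₀ + 30) * 2, by positivity, fun t ht => ?_⟩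
  have hpi := Real.pi_gt_three
  have hpi4 := Real.pi_lt_four
  have ht0 : 0 < t := by linarith
  set τ : ℝ := Real.sqrt (t / (2 * Real.pi)) with hτ
  set M : ℕ := ⌊τ⌋₊ with hM
  have hτ2 : τ ^ 2 = t / (2 * Real.pi) := Real.sq_sqrt (by positivity)
  have hτ0 : 0 ≤ τ := Real.sqrt_nonneg _
  have hMτ : (M : ℝ) ≤ τ := Nat.floor_le hτ0
  have hτM : τ < M + 1 := Nat.lt_floor_add_one τ
  have htτ : t = 2 * Real.pi * τ ^ 2 := by rw [hτ2]; field_simp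
  have hM3 : 3 ≤ M := by
    apply Nat.le_floor
    rw [hτ]
    apply Real.le_sqrt_of_sq_le
    rw [le_div_iff₀ (by positivity)]
    norm_num
    linarith
  have hM3r : (3 : ℝ) ≤ M := by exact_mod_cast hM3
  have htlow : 2 * Real.pi * (M : ℝ) ^ 2 ≤ t := by
    rw [htτ]; gcongr
  have htup : t ≤ 2 * Real.pi * ((M : ℝ) + 1) ^ 2 := by
    rw [htτ]; gcongr
  have hMt : (M : ℝ) + 2 ≤ t := by nlinarith
  set X : ℕ := ⌈t ^ 3⌉₊ with hX
  have hXt : t ^ 3 ≤ X := Nat.le_ceil _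
  have ht13 : t ≤ t ^ 3 := by nlinarith [sq_nonneg t, sq_nonneg (t - 1)]
  have hX2 : (M : ℝ) + 2 ≤ X := by linarith
  have hX1 : M + 1 ≤ X := by
    have : ((M + 1 : ℕ) : ℝ) ≤ X := by push_cast; linarith
    exact_mod_cast this
  have hX11 : 1 ≤ X := by omega
  have hXr : (0 : ℝ) < X := by exact_mod_cast hX11
  have hm0 : (0 : ℝ) < (M : ℝ) + 1 := by linarith
  -- sums
  have hA : A t = ∑ n ∈ Icc 1 M, zt n t := rfl
  have hsum : ∑ n ∈ Icc 1 X, zt n t = ∑ n ∈ Icc 1 M, zt n t + ∑ n ∈ Icc (M + 1) X, zt n t := by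
    have hd : Icc 1 X = Icc 1 M ∪ Icc (M + 1) X := by
      ext n; simp only [Finset.mem_union, Finset.mem_Icc]; omega
    rw [hd, Finset.sum_union]
    rw [Finset.disjoint_left]
    intro n hn hn2
    rw [Finset.mem_Icc] at hn hn2
    omega
  have hrange : ∑ μ ∈ range (M + 2), ∫ u in ((M : ℝ) + 1)..(X : ℝ), gI t μ u =
      (∫ u in ((M : ℝ) + 1)..(X : ℝ), gI t 0 u) +
        ∑ μ ∈ Icc 1 M, (∫ u in ((M : ℝ) + 1)..(X : ℝ), gI t μ u) +
          ∫ u in ((M : ℝ) + 1)..(X : ℝ), gI t (M + 1) u := by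
    rw [Finset.sum_range_succ]
    congr 1
    rw [Finset.range_eq_Ico, Finset.sum_eq_sum_Ico_succ_bot (by omega)]
    congr 1
  have hJ : ∀ μ : ℕ, ∫ u in ((M : ℝ) + 1)..(X : ℝ), gI t μ u =
      (∫ u in (0 : ℝ)..(X : ℝ), gI t μ u) - ∫ u in (0 : ℝ)..((M : ℝ) + 1), gI t μ u := fun μ => by
    rw [eq_sub_iff_add_eq, add_comm]
    exact intervalIntegral.integral_add_adjacent_intervals
      (intervalIntegrable_gI le_rfl hm0.le t μ) (intervalIntegrable_gI hm0.le hXr.le t μ)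
  have hconj : (starRingEnd ℂ) (A t) =
      ∑ μ ∈ Icc 1 M, (((1 / Real.sqrt μ : ℝ)) : ℂ) * ei (t * Real.log μ) := by
    rw [hA, map_sum]
    apply Finset.sum_congr rfl
    intro μ _
    unfold zt
    rw [map_mul, Complex.conj_ofReal, conj_ei, neg_neg]
  -- error terms
  set E1 : ℂ := riemannZeta (1 / 2 + t * Complex.I) - ∑ n ∈ Icc 1 X, zt n t -
        (X : ℂ) ^ (1 / 2 - t * Complex.I) / (-1 / 2 + t * Complex.I) with hE1
  set E0 : ℂ := ∑ n ∈ Icc (M + 1) X, zt n t -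
    ∑ μ ∈ range (M + 2), ∫ u in ((M : ℝ) + 1)..(X : ℝ), gI t μ u with hE0
  have key : riemannZeta (1 / 2 + t * Complex.I) - (A t + chiT t * (starRingEnd ℂ) (A t)) =
      E1 + E0 - (((M : ℝ) + 1 : ℝ) : ℂ) ^ (1 / 2 - t * Complex.I) / (1 / 2 - t * Complex.I) +
      ∑ μ ∈ Icc 1 M, ((∫ u in (0 : ℝ)..(X : ℝ), gI t μ u) -
        chiT t * ((((1 / Real.sqrt μ : ℝ)) : ℂ) * ei (t * Real.log μ))) -
      ∑ μ ∈ Icc 1 M, (∫ u in (0 : ℝ)..((M : ℝ) + 1), gI t μ u) +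
      ∫ u in ((M : ℝ) + 1)..(X : ℝ), gI t (M + 1) u := by
    rw [hE1, hE0, hrange, hsum, hconj, hA, integral_gI_zero hm0 (by linarith),
      Finset.sum_congr rfl (fun μ _ => hJ μ), Finset.sum_sub_distrib, Finset.sum_sub_distrib,
      ← Finset.mul_sum]
    have e1 : (X : ℂ) ^ (1 / 2 - t * Complex.I) / (-1 / 2 + t * Complex.I) =
        -((((X : ℝ)) : ℂ) ^ (1 / 2 - t * Complex.I) / (1 / 2 - t * Complex.I)) := by
      have : (-1 / 2 + (t : ℂ) * Complex.I) = -(1 / 2 - t * Complex.I) := by ring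
      rw [this, div_neg, Complex.ofReal_natCast]
    rw [e1, sub_div]
    ring
  rw [key]
  have b1 : ‖E1‖ ≤ C₁ * t / Real.sqrt X := h1 t X (by linarith) hX11
  have b0 : ‖E0‖ ≤ C₀ * (1 / Real.sqrt ((M : ℝ) + 1)) * (1 + Real.log (1 + ((M : ℝ) + 1))) :=
    h0 t M X ht0.le hX1 htup
  have b2 : ‖∑ μ ∈ Icc 1 M, ((∫ u in (0 : ℝ)..(X : ℝ), gI t μ u) -
        chiT t * ((((1 / Real.sqrt μ : ℝ)) : ℂ) * ei (t * Real.log μ)))‖ ≤
      M * (C₂ / Real.sqrt X) := by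
    refine (norm_sum_le _ _).trans ?_
    refine (Finset.sum_le_card_nsmul _ _ (C₂ / Real.sqrt X) ?_).trans ?_
    · intro μ hμ
      rw [Finset.mem_Icc] at hμ
      exact h2 t X μ (by linarith) (by linarith) hμ.1
    · simp
  have b3 : ‖∑ μ ∈ Icc 1 M, (∫ u in (0 : ℝ)..((M : ℝ) + 1), gI t μ u)‖ ≤
      (9 + Real.log (1 + M)) / Real.sqrt ((M : ℝ) + 1) :=
    (norm_sum_le _ _).trans (sum_low hM3 htlow)
  have b4 := top_freq ht0.le htup hX2
  have b5 : ‖(((M : ℝ) + 1 : ℝ) : ℂ) ^ (1 / 2 - t * Complex.I) / (1 / 2 - t * Complex.I)‖ ≤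
      Real.sqrt ((M : ℝ) + 1) / t := by
    rw [norm_div, Complex.norm_cpow_eq_rpow_re_of_pos hm0]
    have hre : (1 / 2 - (t : ℂ) * Complex.I).re = 1 / 2 := by simp
    rw [hre, ← Real.sqrt_eq_rpow]
    apply div_le_div_of_nonneg_left (Real.sqrt_nonneg _) ht0
    have him : |(1 / 2 - (t : ℂ) * Complex.I).im| ≤ ‖(1 / 2 - (t : ℂ) * Complex.I)‖ :=
      Complex.abs_im_le_norm _
    have : (1 / 2 - (t : ℂ) * Complex.I).im = -t := by simp
    rw [this, abs_neg, abs_of_pos ht0] at him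
    exact him
  -- numerical estimates
  have hsm : 0 < Real.sqrt ((M : ℝ) + 1) := Real.sqrt_pos.mpr hm0
  have hm2 : Real.sqrt ((M : ℝ) + 1) ^ 2 = (M : ℝ) + 1 := Real.sq_sqrt hm0.le
  have hsX : t ^ (3 / 2 : ℝ) ≤ Real.sqrt X := by
    apply Real.le_sqrt_of_sq_le
    rw [← Real.rpow_natCast, ← Real.rpow_mul ht0.le]
    norm_num
    exact_mod_cast hXt
  have hXinv : 1 / Real.sqrt X ≤ t ^ (-(3 / 2) : ℝ) := by
    rw [Real.rpow_neg ht0.le, ← one_div]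
    exact one_div_le_one_div_of_le (by positivity) hsX
  have ht1 : (1 : ℝ) ≤ t := by linarith
  have htX : t / Real.sqrt X ≤ t ^ (-(1 / 5) : ℝ) := by
    calc t / Real.sqrt X = t * (1 / Real.sqrt X) := by ring
      _ ≤ t * t ^ (-(3 / 2) : ℝ) := by gcongr
      _ = t ^ (-(1 / 2) : ℝ) := by
          nth_rewrite 1 [← Real.rpow_one t]
          rw [← Real.rpow_add ht0]; norm_num
      _ ≤ t ^ (-(1 / 5) : ℝ) := Real.rpow_le_rpow_of_exponent_le ht1 (by norm_num)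
  -- `(1 + log) / √(M+1)`
  have hinv : ((M : ℝ) + 1) ^ (-(2 / 5) : ℝ) ≤ 2 * t ^ (-(1 / 5) : ℝ) := by
    have h3 : t / 8 ≤ ((M : ℝ) + 1) ^ 2 := by nlinarith
    have h4 : (t / 8) ^ (1 / 5 : ℝ) ≤ ((M : ℝ) + 1) ^ (2 / 5 : ℝ) := by
      have := Real.rpow_le_rpow (by positivity) h3 (show (0 : ℝ) ≤ 1 / 5 by norm_num)
      rw [← Real.rpow_natCast, ← Real.rpow_mul hm0.le] at this
      norm_num at this ⊢
      exact this
    rw [Real.rpow_neg hm0.le, Real.rpow_neg ht0.le]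
    have h5 : (t / 8) ^ (1 / 5 : ℝ) = t ^ (1 / 5 : ℝ) / 8 ^ (1 / 5 : ℝ) :=
      Real.div_rpow ht0.le (by norm_num) _
    have h6 : (8 : ℝ) ^ (1 / 5 : ℝ) ≤ 2 := by
      have : (2 : ℝ) = (32 : ℝ) ^ (1 / 5 : ℝ) := by
        rw [show (32 : ℝ) = 2 ^ (5 : ℝ) by norm_num, ← Real.rpow_mul (by norm_num)]
        norm_num
      rw [this]
      exact Real.rpow_le_rpow (by norm_num) (by norm_num) (by norm_num)
    have hm5 : 0 < ((M : ℝ) + 1) ^ (2 / 5 : ℝ) := by positivity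
    have ht5 : 0 < t ^ (1 / 5 : ℝ) := by positivity
    have h85 : (0 : ℝ) < (8 : ℝ) ^ (1 / 5 : ℝ) := by positivity
    rw [h5, div_le_iff₀ h85] at h4
    rw [← one_div, ← div_eq_mul_inv, div_le_div_iff₀ hm5 ht5]
    nlinarith
  have hlog : ∀ x : ℝ, 1 ≤ x → Real.log (2 * x) ≤ 1 + 10 * x ^ (1 / 10 : ℝ) := fun x hx => by
    rw [Real.log_mul (by norm_num) (by positivity)]
    have h3 := Real.log_le_rpow_div (show (0 : ℝ) ≤ x by linarith) (show (0 : ℝ) < 1 / 10 by norm_num)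
    have h4 : Real.log 2 ≤ 1 := by have := Real.log_two_lt_d9; linarith
    have h5 : x ^ (1 / 10 : ℝ) / (1 / 10) = 10 * x ^ (1 / 10 : ℝ) := by ring
    linarith
  have hm1 : (1 : ℝ) ≤ (M : ℝ) + 1 := by linarith
  have hL := hlog ((M : ℝ) + 1) hm1
  have hone : (1 : ℝ) ≤ ((M : ℝ) + 1) ^ (1 / 10 : ℝ) := Real.one_le_rpow hm1 (by norm_num)
  have hprod : ((M : ℝ) + 1) ^ (1 / 10 : ℝ) / Real.sqrt ((M : ℝ) + 1) ≤
      2 * t ^ (-(1 / 5) : ℝ) := by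
    refine le_trans (le_of_eq ?_) hinv
    rw [Real.sqrt_eq_rpow, ← Real.rpow_sub hm0]
    norm_num
  have hinvs : 1 / Real.sqrt ((M : ℝ) + 1) ≤ 2 * t ^ (-(1 / 5) : ℝ) := by
    refine le_trans ?_ hprod
    gcongr
  have hlog1 : 1 + Real.log (1 + ((M : ℝ) + 1)) ≤ 12 * ((M : ℝ) + 1) ^ (1 / 10 : ℝ) := by
    have : Real.log (1 + ((M : ℝ) + 1)) ≤ Real.log (2 * ((M : ℝ) + 1)) :=
      Real.log_le_log (by linarith) (by linarith)
    linarith
  have hlog2 : 9 + Real.log (1 + (M : ℝ)) ≤ 20 * ((M : ℝ) + 1) ^ (1 / 10 : ℝ) := by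
    have : Real.log (1 + (M : ℝ)) ≤ Real.log (2 * ((M : ℝ) + 1)) :=
      Real.log_le_log (by linarith) (by linarith)
    linarith
  have c1 : C₁ * t / Real.sqrt X ≤ C₁ * t ^ (-(1 / 5) : ℝ) := by
    rw [mul_div_assoc]; gcongr
  have c2 : M * (C₂ / Real.sqrt X) ≤ C₂ * t ^ (-(1 / 5) : ℝ) := by
    calc M * (C₂ / Real.sqrt X) = C₂ * (M / Real.sqrt X) := by ring
      _ ≤ C₂ * (t / Real.sqrt X) := by gcongr; linarith
      _ ≤ _ := by gcongr
  have c0 : C₀ * (1 / Real.sqrt ((M : ℝ) + 1)) * (1 + Real.log (1 + ((M : ℝ) + 1))) ≤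
      12 * C₀ * (2 * t ^ (-(1 / 5) : ℝ)) := by
    calc C₀ * (1 / Real.sqrt ((M : ℝ) + 1)) * (1 + Real.log (1 + ((M : ℝ) + 1)))
        ≤ C₀ * (1 / Real.sqrt ((M : ℝ) + 1)) * (12 * ((M : ℝ) + 1) ^ (1 / 10 : ℝ)) := by gcongr
      _ = 12 * C₀ * (((M : ℝ) + 1) ^ (1 / 10 : ℝ) / Real.sqrt ((M : ℝ) + 1)) := by ring
      _ ≤ _ := by gcongr
  have c3 : (9 + Real.log (1 + M)) / Real.sqrt ((M : ℝ) + 1) ≤ 20 * (2 * t ^ (-(1 / 5) : ℝ)) := by
    calc (9 + Real.log (1 + M)) / Real.sqrt ((M : ℝ) + 1)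
        ≤ (20 * ((M : ℝ) + 1) ^ (1 / 10 : ℝ)) / Real.sqrt ((M : ℝ) + 1) := by gcongr
      _ = 20 * (((M : ℝ) + 1) ^ (1 / 10 : ℝ) / Real.sqrt ((M : ℝ) + 1)) := by ring
      _ ≤ _ := by gcongr
  have c4 : 2 / Real.sqrt ((M : ℝ) + 1) ≤ 2 * (2 * t ^ (-(1 / 5) : ℝ)) := by
    calc 2 / Real.sqrt ((M : ℝ) + 1) = 2 * (1 / Real.sqrt ((M : ℝ) + 1)) := by ring
      _ ≤ _ := by gcongr
  have c5 : Real.sqrt ((M : ℝ) + 1) / t ≤ t ^ (-(1 / 5) : ℝ) := by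
    have h6 : Real.sqrt ((M : ℝ) + 1) ≤ t ^ (1 / 2 : ℝ) := by
      rw [← Real.sqrt_eq_rpow]
      exact Real.sqrt_le_sqrt (by linarith)
    calc Real.sqrt ((M : ℝ) + 1) / t ≤ t ^ (1 / 2 : ℝ) / t := by gcongr
      _ = t ^ (-(1 / 2) : ℝ) := by
          nth_rewrite 2 [← Real.rpow_one t]
          rw [← Real.rpow_sub ht0]; norm_num
      _ ≤ _ := Real.rpow_le_rpow_of_exponent_le ht1 (by norm_num)
  have hfin : ‖E1 + E0 - (((M : ℝ) + 1 : ℝ) : ℂ) ^ (1 / 2 - t * Complex.I) / (1 / 2 - t * Complex.I) +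
      ∑ μ ∈ Icc 1 M, ((∫ u in (0 : ℝ)..(X : ℝ), gI t μ u) -
        chiT t * ((((1 / Real.sqrt μ : ℝ)) : ℂ) * ei (t * Real.log μ))) -
      ∑ μ ∈ Icc 1 M, (∫ u in (0 : ℝ)..((M : ℝ) + 1), gI t μ u) +
      ∫ u in ((M : ℝ) + 1)..(X : ℝ), gI t (M + 1) u‖ ≤
      ‖E1‖ + ‖E0‖ +
      ‖(((M : ℝ) + 1 : ℝ) : ℂ) ^ (1 / 2 - t * Complex.I) / (1 / 2 - t * Complex.I)‖ +
      ‖∑ μ ∈ Icc 1 M, ((∫ u in (0 : ℝ)..(X : ℝ), gI t μ u) -
        chiT t * ((((1 / Real.sqrt μ : ℝ)) : ℂ) * ei (t * Real.log μ)))‖ +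
      ‖∑ μ ∈ Icc 1 M, (∫ u in (0 : ℝ)..((M : ℝ) + 1), gI t μ u)‖ +
      ‖∫ u in ((M : ℝ) + 1)..(X : ℝ), gI t (M + 1) u‖ := by
    refine (norm_add_le _ _).trans (add_le_add ?_ le_rfl)
    refine (norm_sub_le _ _).trans (add_le_add ?_ le_rfl)
    refine (norm_add_le _ _).trans (add_le_add ?_ le_rfl)
    refine (norm_sub_le _ _).trans (add_le_add ?_ le_rfl)
    exact norm_add_le _ _
  refine hfin.trans ?_
  have htp : 0 < t ^ (-(1 / 5) : ℝ) := by positivity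
  have hC₀p : 0 < C₀ * t ^ (-(1 / 5) : ℝ) := by positivity
  nlinarith

/-- [AFE] -/
theorem afe (hTP : TTP) (hZ1 : TZ1) (hZ2 : TZ2) (hZ3 : TZ3) (hZ4 : TZ4) (hZ : TZreal) : TAFE := by
  obtain ⟨C, hC, h⟩ := afe_zeta hTP hZ1 hZ2
  obtain ⟨C₃, hC₃, h3⟩ := hZ3
  obtain ⟨C₄, hC₄, h4⟩ := hZ4
  obtain ⟨hz, hn, -⟩ := hZ
  refine ⟨C + 4 * C₃ + 2 * C₄, by positivity, fun t ht => ?_⟩
  have ht0 : 0 < t := by linarith
  have ht1 : 1 ≤ t := by linarith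
  have hpi := Real.pi_gt_three
  set E : ℂ := riemannZeta (1 / 2 + t * Complex.I) - (A t + chiT t * (starRingEnd ℂ) (A t)) with hE
  have hEb := h t ht
  have h3t := h3 t ht1
  have h4t := h4 t ht1
  have hnt := hn t
  set T : ℂ := eTheta t with hT
  set D : ℂ := chiT t * T ^ 2 - 1 with hD
  have hTc : T * (starRingEnd ℂ) T = 1 := by
    rw [Complex.mul_conj, Complex.normSq_eq_norm_sq, hnt]; norm_num
  have hAb : ‖A t‖ ≤ 2 * t ^ (1 / 2 : ℝ) := by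
    refine (norm_A_le t).trans ?_
    have h5 : Real.sqrt ⌊Real.sqrt (t / (2 * Real.pi))⌋₊ ≤ t ^ (1 / 2 : ℝ) := by
      rw [← Real.sqrt_eq_rpow]
      apply Real.sqrt_le_sqrt
      refine (Nat.floor_le (Real.sqrt_nonneg _)).trans ?_
      rw [Real.sqrt_le_left ht0.le]
      rw [div_le_iff₀ (by positivity)]
      nlinarith
    linarith
  have key : ((Z t : ℝ) : ℂ) - ((2 * (P t).re : ℝ) : ℂ) =
      (T - ei (th0 t)) * A t + (starRingEnd ℂ) ((T - ei (th0 t)) * A t) +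
        (starRingEnd ℂ) (T * A t) * D + T * E := by
    have e1 : ((2 * (P t).re : ℝ) : ℂ) = P t + (starRingEnd ℂ) (P t) := by
      rw [Complex.add_conj]
    have e2 : riemannZeta (1 / 2 + t * Complex.I) =
        E + (A t + chiT t * (starRingEnd ℂ) (A t)) := by rw [hE]; ring
    rw [hz t, e1, e2]
    unfold P
    rw [hD]
    simp only [map_mul, map_sub]
    linear_combination -(T * chiT t * (starRingEnd ℂ) (A t)) * hTc
  have hnorm : |Z t - 2 * (P t).re| = ‖((Z t : ℝ) : ℂ) - ((2 * (P t).re : ℝ) : ℂ)‖ := by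
    rw [← Complex.ofReal_sub, Complex.norm_real, Real.norm_eq_abs]
  rw [hnorm, key]
  have n1 : ‖(T - ei (th0 t)) * A t‖ ≤ C₃ / t * (2 * t ^ (1 / 2 : ℝ)) := by
    rw [norm_mul]; gcongr
  have n2 : ‖(starRingEnd ℂ) (T * A t) * D‖ ≤ (2 * t ^ (1 / 2 : ℝ)) * (C₄ / t) := by
    rw [norm_mul, RCLike.norm_conj, norm_mul, hnt, one_mul]; gcongr
  have n3 : ‖T * E‖ ≤ C * t ^ (-(1 / 5) : ℝ) := by
    rw [norm_mul, hnt, one_mul]; exact hEb
  have e5 : t ^ (1 / 2 : ℝ) / t ≤ t ^ (-(1 / 5) : ℝ) := by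
    calc t ^ (1 / 2 : ℝ) / t = t ^ (-(1 / 2) : ℝ) := by
          nth_rewrite 2 [← Real.rpow_one t]
          rw [← Real.rpow_sub ht0]; norm_num
      _ ≤ _ := Real.rpow_le_rpow_of_exponent_le ht1 (by norm_num)
  have hfin : ‖(T - ei (th0 t)) * A t + (starRingEnd ℂ) ((T - ei (th0 t)) * A t) +
        (starRingEnd ℂ) (T * A t) * D + T * E‖ ≤
      ‖(T - ei (th0 t)) * A t‖ + ‖(T - ei (th0 t)) * A t‖ +
        ‖(starRingEnd ℂ) (T * A t) * D‖ + ‖T * E‖ := by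
    refine (norm_add_le _ _).trans (add_le_add ?_ le_rfl)
    refine (norm_add_le _ _).trans (add_le_add ?_ le_rfl)
    refine (norm_add_le _ _).trans (add_le_add le_rfl ?_)
    rw [RCLike.norm_conj]
  refine hfin.trans ?_
  have e6 : C₃ / t * (2 * t ^ (1 / 2 : ℝ)) = 2 * C₃ * (t ^ (1 / 2 : ℝ) / t) := by ring
  have e7 : (2 * t ^ (1 / 2 : ℝ)) * (C₄ / t) = 2 * C₄ * (t ^ (1 / 2 : ℝ) / t) := by ring
  have e8 : 2 * C₃ * (t ^ (1 / 2 : ℝ) / t) ≤ 2 * C₃ * t ^ (-(1 / 5) : ℝ) := by gcongr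
  have e9 : 2 * C₄ * (t ^ (1 / 2 : ℝ) / t) ≤ 2 * C₄ * t ^ (-(1 / 5) : ℝ) := by gcongr
  rw [e6] at n1
  rw [e7] at n2
  linarith

end Pool.Agent.H97.Cubic
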